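import Pool.Agent.H53.MW.Targets
import Pool.Agent.H53.MC.AL

/-!
MP_c62aed_lc, permanent lines and work memory, row ABM: part (1).
-/

set_option autoImplicit false

namespace Pool.Agent.H50.MWK

open Finset
open Pool.Agent.H53.MW
open Pool.Agent.H53.MC (Clause Falsified SatBy Line Circuit U Viol toC scope Ins cnt H1 Covers InR
  Bad cf natCard_le natCard_or)
open Pool.Agent.H15.FLX (Scopes Signs clause cnf Few en idx FG BR)
open Pool.Agent.H97.SHL (DT bl)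

theorem natCard_exMul {α β : Type} [Finite α] (S : Finset β) (P : β → α → Prop) (Y Z : ℕ)
    (h : ∀ b ∈ S, Nat.card {x // P b x} * Y ≤ Z) :
    Nat.card {x // ∃ b ∈ S, P b x} * Y ≤ S.card * Z := by
  classical
  have := Fintype.ofFinite α
  rw [Nat.card_eq_fintype_card, Fintype.card_subtype]
  have h1 : (univ.filter fun x : α => ∃ b ∈ S, P b x) =
      S.biUnion fun b => univ.filter fun x => P b x := by
    ext x
    simp
  rw [h1]
  refine (Nat.mul_le_mul_right Y Finset.card_biUnion_le).trans ?_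
  rw [Finset.sum_mul, ← smul_eq_mul]
  refine Finset.sum_le_card_nsmul _ _ _ fun b hb => ?_
  have := h b hb
  rwa [Nat.card_eq_fintype_card, Fintype.card_subtype] at this

theorem pf_ABM (hCAP : Pool.Agent.H53.MC.T_CAP) (hLFX : Pool.Agent.H15.FLX.T_LFX)
    (hHTX : Pool.Agent.H15.FLX.T_HTX) (hKSX : T_KSX) (hLSS : T_LSS) (hQPC : T_QPC) (hREG : T_REG)
    (hPLM : T_PLM) : T_ABM := by
  classical
  intro n M k μ g γ t w d s₀ q hg hH hP 𝓛 𝓠 s L h𝓠 hs1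
  obtain ⟨θ, hθ⟩ : ∃ θ, θ = th1 n w d s₀ s := ⟨_, rfl⟩
  have hth0 : 2 ^ (n - w) < th0 n w := by
    unfold th0
    omega
  have hX1 : 1 ≤ th0 n w * 2 ^ (d * s₀) :=
    Nat.mul_pos (Nat.pos_of_ne_zero (by unfold th0; simp)) (by positivity)
  have hth0' : th0 n w ≤ θ := by
    rw [hθ]
    unfold th1
    have h1 : th0 n w * 1 ≤ th0 n w * 2 ^ (d * s₀) :=
      Nat.mul_le_mul_left _ (Nat.one_le_two_pow)
    have h2 : 4 * (th0 n w * 2 ^ (d * s₀)) * 1 ≤ 4 * (th0 n w * 2 ^ (d * s₀)) * s :=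
      Nat.mul_le_mul_left _ hs1
    omega
  have hθw : 2 ^ (n - w) < θ := lt_of_lt_of_le hth0 hth0'
  have hθ5 : θ ≤ 5 * (th0 n w * 2 ^ (d * s₀)) * s := by
    rw [hθ]
    unfold th1
    have h2 : 1 * 1 ≤ (th0 n w * 2 ^ (d * s₀)) * s := Nat.mul_le_mul hX1 hs1
    have h3 : 5 * (th0 n w * 2 ^ (d * s₀)) * s =
        4 * (th0 n w * 2 ^ (d * s₀)) * s + (th0 n w * 2 ^ (d * s₀)) * s := by ring
    omega
  obtain ⟨E, hEc, hE⟩ := hLSS g d s₀ θ 𝓛
  obtain ⟨N, hN⟩ : ∃ N, N = Nat.card (Signs n M μ) := ⟨_, rfl⟩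
  obtain ⟨a, ha⟩ : ∃ a, a = Nat.card {σ : Signs n M μ //
    DerivesL (Set.range (cf g (FG g σ))) 𝓛 𝓠 t s L} := ⟨_, rfl⟩
  obtain ⟨b, hb⟩ : ∃ b, b = Nat.card {x // x ∉ L} := ⟨_, rfl⟩
  obtain ⟨B, hB⟩ : ∃ B, B = Nat.card {σ : Signs n M μ //
    ∃ L ∈ 𝓛, Bad g q {KerS g d s₀ θ (Lᶜ \ E)} (FG g σ)} := ⟨_, rfl⟩
  obtain ⟨I, hI⟩ : ∃ I, I = Nat.card {σ : Signs n M μ //
    ¬ Reg g d s₀ (th0 n w) θ (qp 𝓠 t) (𝓛.image fun L => Lᶜ \ E) (FG g σ)} := ⟨_, rfl⟩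
  rw [← hN, ← ha, ← hb]
  have hNpos : 0 < N := by
    rw [hN]
    exact Nat.card_pos
  by_cases hLL : L ∈ 𝓛
  swap
  · have ha0 : a = 0 := by
      rw [ha]
      have : IsEmpty {σ : Signs n M μ // DerivesL (Set.range (cf g (FG g σ))) 𝓛 𝓠 t s L} :=
        ⟨fun F => hLL (F.2 {L' | L' ∈ 𝓛} fun L' hL' _ => hL')⟩
      exact Nat.card_of_isEmpty
    refine ⟨fun _ _ => ?_, fun _ => ?_⟩
    · rw [ha0, mul_zero]
      exact hNpos
    · rw [ha0, mul_zero]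
      exact Nat.zero_le _
  have h𝓛1 : 1 ≤ 𝓛.card := Finset.card_pos.mpr ⟨L, hLL⟩
  obtain ⟨c, hc⟩ : ∃ c, c = 𝓛.card * s := ⟨_, rfl⟩
  rw [← hc]
  have hc1 : 𝓛.card ≤ c := by
    rw [hc]
    exact Nat.le_mul_of_pos_right _ hs1
  have hc2 : s ≤ c := by
    rw [hc]
    exact Nat.le_mul_of_pos_left _ h𝓛1
  -- the bad signs
  have hBad : B * (2 ^ k) ^ (q + 1) ≤ 𝓛.card * ((s₀ * μ) ^ (q + 1) * N) := by
    rw [hB, hN]
    refine natCard_exMul 𝓛
      (fun L (σ : Signs n M μ) => Bad g q {KerS g d s₀ θ (Lᶜ \ E)} (FG g σ)) _ _ fun L' hL' => ?_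
    refine hLFX g w s₀ q hg hH {KerS g d s₀ θ (L'ᶜ \ E)} ?_ ?_
    · intro K hK K' hK' hne
      rw [Set.mem_singleton_iff] at hK hK'
      exact absurd (hK.trans hK'.symm) hne
    · intro K hK p hp
      rw [Set.mem_singleton_iff] at hK
      rw [hK] at hp
      exact (hKSX g d s₀ w θ hP.wn hθw).2.1 _ p hp
  have hBN : c ≤ 2 ^ n → 8 * (2 ^ t * B) ≤ N := by
    intro hcn
    have h1 : (2 ^ k) ^ (q + 1) * (8 * (2 ^ t * B)) ≤ (2 ^ k) ^ (q + 1) * N := by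
      calc (2 ^ k) ^ (q + 1) * (8 * (2 ^ t * B)) = 8 * 2 ^ t * (B * (2 ^ k) ^ (q + 1)) := by
            ring
        _ ≤ 8 * 2 ^ t * (𝓛.card * ((s₀ * μ) ^ (q + 1) * N)) := Nat.mul_le_mul_left _ hBad
        _ ≤ 8 * 2 ^ t * (2 ^ n * ((s₀ * μ) ^ (q + 1) * N)) :=
            Nat.mul_le_mul_left _ (Nat.mul_le_mul_right _ (hc1.trans hcn))
        _ = 2 ^ (n + t + 3) * (s₀ * μ) ^ (q + 1) * N := by
            rw [pow_add, pow_add]
            ring
        _ ≤ (2 ^ k) ^ (q + 1) * N := Nat.mul_le_mul_right _ hP.bad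
    exact Nat.le_of_mul_le_mul_left h1 (by positivity)
  -- the irregular signs
  have hIN : c ≤ 2 ^ n → 8 * (2 ^ t * I) ≤ N := by
    intro hcn
    have h1 : (𝓛.image fun L => Lᶜ \ E).card ≤ 2 ^ (2 * n + 2) :=
      Finset.card_image_le.trans ((hc1.trans hcn).trans
        (Nat.pow_le_pow_right (by norm_num) (by omega)))
    have h2 := hREG (μ := μ) g γ t w d s₀ q θ hg hH hP hth0' (qp 𝓠 t) (𝓛.image fun L => Lᶜ \ E)
      (hQPC 𝓠 t h𝓠) h1
    rw [← hI, ← hN] at h2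
    calc 8 * (2 ^ t * I) = I * 2 ^ (t + 3) := by
          rw [pow_add]
          ring
      _ ≤ N := h2
  -- derived lines of good formulas
  have hgood : c ≤ 2 ^ n → ∀ σ : Signs n M μ,
      DerivesL (Set.range (cf g (FG g σ))) 𝓛 𝓠 t s L →
      ¬ (∃ L ∈ 𝓛, Bad g q {KerS g d s₀ θ (Lᶜ \ E)} (FG g σ)) →
      Reg g d s₀ (th0 n w) θ (qp 𝓠 t) (𝓛.image fun L => Lᶜ \ E) (FG g σ) →
      Lfc g (FG g σ) q (Lᶜ \ E) ∧ ∀ p ∈ KerS g d s₀ θ (Lᶜ \ E), Hit g (FG g σ) p := by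
    intro hcn σ hD hF hR
    rw [hθ] at hF hR hE ⊢
    exact (hPLM g w s₀ d t q s hg hH hP.wn hP.n1 (by have := hP.t2; omega) hP.rr
      (hc2.trans hcn) 𝓛 𝓠 E hE (FG g σ) (fun L' hL' hbad => hF ⟨L', hL', hbad⟩) hR L hD).2
  have hbc : b = (Lᶜ).card := by
    rw [hb, Nat.card_eq_fintype_card, Fintype.card_subtype]
    congr 1
    ext x
    simp
  have hb2 : b ≤ 2 ^ n := by
    rw [hbc]
    calc (Lᶜ).card ≤ Fintype.card (Fin n → Bool) := Finset.card_le_univ _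
      _ = 2 ^ n := by simp
  have hsplit : b ≤ E.card + (Lᶜ \ E).card := by
    rw [hbc]
    have := Finset.card_le_card_sdiff_add_card (s := Lᶜ) (t := E)
    omega
  have hpow : (2 : ℝ) ^ (γ * n) * 2 ^ ((1 - γ) * n) = 2 ^ n := by
    rw [← Real.rpow_add (by norm_num), ← Real.rpow_natCast]
    congr 1
    ring
  have hEr : 4 * (E.card : ℝ) ≤ c * 2 ^ ((1 - γ) * n) := by
    have h1 : 4 * E.card ≤ c * (20 * (2 ^ (d * s₀) * ((2 ^ (n - w) + 1) * 2 ^ (d * s₀)))) := by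
      calc 4 * E.card ≤ 4 * (𝓛.card * (2 ^ (d * s₀) * θ)) := Nat.mul_le_mul_left _ hEc
        _ ≤ 4 * (𝓛.card * (2 ^ (d * s₀) * (5 * (th0 n w * 2 ^ (d * s₀)) * s))) :=
            Nat.mul_le_mul_left _ (Nat.mul_le_mul_left _ (Nat.mul_le_mul_left _ hθ5))
        _ = c * (20 * (2 ^ (d * s₀) * ((2 ^ (n - w) + 1) * 2 ^ (d * s₀)))) := by
            rw [hc]
            unfold th0
            ring
    have h2 : 4 * (E.card : ℝ) ≤
        c * (20 * (2 ^ (d * s₀) * ((2 ^ (n - w) + 1) * 2 ^ (d * s₀)))) := by exact_mod_cast h1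
    exact h2.trans (mul_le_mul_of_nonneg_left hP.tau (Nat.cast_nonneg _))
  have hγ : 0 ≤ 1 - γ := by
    have := hP.γ1
    linarith
  have h1pow : (1 : ℝ) ≤ 2 ^ ((1 - γ) * n) := Real.one_le_rpow (by norm_num) (by positivity)
  refine ⟨fun hs hbig => ?_, fun hs => ?_⟩
  · -- (a)
    have hcn : c ≤ 2 ^ n := by
      have h1 : (c : ℝ) ≤ 2 ^ n := by
        refine hs.trans ?_
        rw [← hpow]
        exact le_mul_of_one_le_right (by positivity) h1pow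
      exact_mod_cast h1
    have hin : ∀ σ : Signs n M μ, DerivesL (Set.range (cf g (FG g σ))) 𝓛 𝓠 t s L →
        (∃ L ∈ 𝓛, Bad g q {KerS g d s₀ θ (Lᶜ \ E)} (FG g σ)) ∨
        ¬ Reg g d s₀ (th0 n w) θ (qp 𝓠 t) (𝓛.image fun L => Lᶜ \ E) (FG g σ) := by
      intro σ hD
      by_contra hno
      rw [not_or, not_not] at hno
      obtain ⟨⟨T, _, hTq, hTc⟩, _⟩ := hgood hcn σ hD hno.1 hno.2
      have h1 := hCAP g q hg T (Lᶜ \ E) hTq hTc
      have h2 : 4 * (E.card : ℝ) ≤ 2 ^ n := by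
        refine hEr.trans ?_
        rw [← hpow]
        exact mul_le_mul_of_nonneg_right hs (by positivity)
      have h3 : 4 * E.card ≤ 2 ^ n := by exact_mod_cast h2
      have h4 := hP.cov
      omega
    have h5 : a ≤ B + I := by
      rw [ha, hB, hI]
      exact (natCard_le _ _ hin).trans (natCard_or _ _)
    have h6 : 2 ^ t * a ≤ 2 ^ t * (B + I) := Nat.mul_le_mul_left _ h5
    rw [mul_add] at h6
    have h7 := hBN hcn
    have h8 := hIN hcn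
    omega
  · -- (b)
    have hcn : c ≤ 2 ^ n := by
      have h1 : (c : ℝ) ≤ 2 ^ n := by
        have h2 : (b : ℝ) ≤ 2 ^ n := by exact_mod_cast hb2
        have h3 : (c : ℝ) ≤ c * 2 ^ ((1 - γ) * n) :=
          le_mul_of_one_le_right (Nat.cast_nonneg _) h1pow
        linarith
      exact_mod_cast h1
    have hEb : E.card < b := by
      have h1 : (E.card : ℝ) < b := by
        have h2 : (0 : ℝ) ≤ E.card := Nat.cast_nonneg _
        linarith
      exact_mod_cast h1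
    have hne : (Lᶜ \ E).Nonempty := by
      rw [← Finset.card_pos]
      omega
    obtain ⟨x, hx⟩ := hne
    have hxE : x ∉ ErrS g d s₀ θ (Lᶜ \ E) := by
      rw [hE L hLL]
      exact Finset.notMem_empty x
    obtain ⟨A, hAK⟩ : ∃ A : Finset (Fin n), (A, x) ∈ KerS g d s₀ θ (Lᶜ \ E) := by
      by_contra hno
      push Not at hno
      refine hxE ?_
      unfold ErrS
      rw [Finset.mem_filter]
      exact ⟨hx, hno⟩
    have hAw : A.card < w := (hKSX g d s₀ w θ hP.wn hθw).2.1 _ (A, x) hAK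
    have hin : ∀ σ : Signs n M μ, DerivesL (Set.range (cf g (FG g σ))) 𝓛 𝓠 t s L →
        ((∃ L ∈ 𝓛, Bad g q {KerS g d s₀ θ (Lᶜ \ E)} (FG g σ)) ∨
        ¬ Reg g d s₀ (th0 n w) θ (qp 𝓠 t) (𝓛.image fun L => Lᶜ \ E) (FG g σ)) ∨
          ∃ j, Ins g (A, x) (FG g σ j) := by
      intro σ hD
      by_cases hbd : ∃ L ∈ 𝓛, Bad g q {KerS g d s₀ θ (Lᶜ \ E)} (FG g σ)
      · exact Or.inl (Or.inl hbd)
      by_cases hrg : Reg g d s₀ (th0 n w) θ (qp 𝓠 t) (𝓛.image fun L => Lᶜ \ E) (FG g σ)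
      · exact Or.inr ((hgood hcn σ hD hbd hrg).2 _ hAK)
      · exact Or.inl (Or.inr hrg)
    obtain ⟨W, hW⟩ : ∃ W, W = Nat.card {σ : Signs n M μ // ∃ j, Ins g (A, x) (FG g σ j)} :=
      ⟨_, rfl⟩
    have h5 : a ≤ B + I + W := by
      rw [ha, hB, hI, hW]
      exact ((natCard_le _ _ hin).trans (natCard_or _ _)).trans
        (Nat.add_le_add_right (natCard_or _ _) _)
    have h6 : W * 2 ^ k ≤ s₀ * μ * N := by
      rw [hW, hN]
      exact hHTX g w s₀ hg hH (A, x) hAw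
    have h7 : 16 * (t * W) ≤ N := by
      have h8 : 2 ^ k * (16 * (t * W)) ≤ 2 ^ k * N := by
        calc 2 ^ k * (16 * (t * W)) = 16 * t * (W * 2 ^ k) := by ring
          _ ≤ 16 * t * (s₀ * μ * N) := Nat.mul_le_mul_left _ h6
          _ = 16 * (t * (s₀ * μ)) * N := by ring
          _ ≤ 2 ^ k * N := Nat.mul_le_mul_right _ hP.hit
      exact Nat.le_of_mul_le_mul_left h8 (by positivity)
    have ht2 : t ≤ 2 ^ t := Nat.lt_two_pow_self.le
    have h9 : t * B ≤ 2 ^ t * B := Nat.mul_le_mul_right _ ht2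
    have h9' : t * I ≤ 2 ^ t * I := Nat.mul_le_mul_right _ ht2
    have h10 := hBN hcn
    have h10' := hIN hcn
    have h11 : t * a ≤ t * (B + I + W) := Nat.mul_le_mul_left _ h5
    rw [mul_add, mul_add] at h11
    omega

end Pool.Agent.H50.MWK
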